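import Pool.Agent.Lib.EMU.M.Defs

/-!
# MP_9aab3b_gt, module M.Plu: Plücker coordinates of an orthogonal projection

PROOF. `exists_plu`. The range `R` of `Q` has dimension `|D|`; let `w : D → R` be an orthonormal basis (`stdOrthonormalBasis ℂ R`, `OrthonormalBasis.reindex` along a bijection
`Fin (finrank) ≃ D`). For `v` arbitrary, `Q v = ∑ d, ⟪w d, v⟫ • w d`: expand `Q v ∈ R` in the basis (`OrthonormalBasis.sum_repr'`), `⟪w d, Q v⟫ = ⟪Q (w d), v⟫ = ⟪w d, v⟫`
(elements of the range are fixed by `Q`). So `ent Q p p' = ∑ d, w d p * conj (w d p')` (`⟪w, single p' 1⟫ = conj (w p')`: `EuclideanSpace.inner_single_right`), i.e. the matrix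
of `minorM Q J J'` is the product of `W_J = (w d (J a))_{a,d}` and of the conjugate transpose of `W_{J'}`; `Matrix.det_mul`, `Matrix.det_transpose`,
`RingHom.map_det` (or `Matrix.det_conjTranspose`).
Not all the minors vanish: `∑ J, minorM Q J J ≠ 0`. Either by expanding: `∑ J, det (W_J) conj (det (W_J)) = ∑ σ π, sgn σ sgn π ∏ a, ⟪w (π a), w (σ a)⟫ = |D|!`
(`Matrix.det_apply`, `Finset.prod_univ_sum`, orthonormality), or: the vectors `(w d p)_d ∈ ℂ^D`, `p : C × Gp`, span `ℂ^D` (a linear form `c` vanishing on them gives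
`∑ c d • w d = 0`, so `c = 0`), so `|D|` of them form a basis, and the corresponding minor is not zero; or by induction on the size: Laplace expansion of minors of
linearly independent rows.
`minorM_cont`: `det` is a polynomial in the entries (`Continuous.matrix_det` / `Matrix.det_apply`), entries are continuous (`Q ↦ Q v p` is continuous).
`minorM_tr`: `single (c, g h) 1 = act g (single (c, h) 1)`; `ent Q' (c, g h) (c', g h') = act g (Q (single (c', h') 1)) (c, g h) = ent Q (c, h) (c', h')`.
`plu_chr`: `w d (tr g⁻¹ J a) = (act g (w d)) (J a)` (`act_apply`) `= z * w d (J a)`; `Matrix.det_smul` (or `det_mul_column`).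
-/

set_option autoImplicit false

open scoped Topology ComplexConjugate

namespace EMU

variable {C D : Type} [Fintype C] [Fintype D] [DecidableEq D]

/-- minors of the matrix with columns `w d` -/
noncomputable def plu (w : D → Rg Gp C) : AA C D := fun J => (Matrix.of fun a d => w d (J a)).det

omit [DecidableEq D] in
private theorem w_expand {Q : Rg Gp C →L[ℂ] Rg Gp C} (hi : ∀ v, Q (Q v) = Q v)
    (hs : ∀ v w, inner ℂ (Q v) w = inner ℂ v (Q w))
    (hr : Module.finrank ℂ (LinearMap.range (Q : Rg Gp C →ₗ[ℂ] Rg Gp C)) = Fintype.card D) :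
    ∃ w : D → Rg Gp C, (∀ d, Q (w d) = w d) ∧ LinearIndependent ℂ w ∧
      ∀ v, Q v = ∑ d, (inner ℂ (w d) v : ℂ) • w d := by
  let b0 := stdOrthonormalBasis ℂ (LinearMap.range (Q : Rg Gp C →ₗ[ℂ] Rg Gp C))
  let e : Fin (Module.finrank ℂ (LinearMap.range (Q : Rg Gp C →ₗ[ℂ] Rg Gp C))) ≃ D :=
    (finCongr hr).trans (Fintype.equivFin D).symm
  let b := b0.reindex e
  have hfix : ∀ d, Q (b d : Rg Gp C) = (b d : Rg Gp C) := by
    intro d
    obtain ⟨v, hv⟩ := (b d).2
    have hv' : Q v = (b d : Rg Gp C) := hv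
    rw [← hv', hi]
  refine ⟨fun d => (b d : Rg Gp C), hfix, ?_, ?_⟩
  · have h1 : LinearIndependent ℂ (fun d => b d) := b.orthonormal.linearIndependent
    exact h1.map' (Submodule.subtype _) (Submodule.ker_subtype _)
  · intro v
    let y : LinearMap.range (Q : Rg Gp C →ₗ[ℂ] Rg Gp C) := ⟨Q v, ⟨v, rfl⟩⟩
    have h1 := b.sum_repr' y
    have h2 := congrArg (Submodule.subtype _) h1
    rw [map_sum] at h2
    have h3 : (Submodule.subtype _) y = Q v := rfl
    rw [h3] at h2
    rw [← h2]
    refine Finset.sum_congr rfl fun d _ => ?_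
    rw [map_smul]
    have h4 : (inner ℂ (b d) y : ℂ) = inner ℂ (b d : Rg Gp C) v := by
      have h5 : (inner ℂ (b d) y : ℂ) = inner ℂ (b d : Rg Gp C) (Q v) := rfl
      rw [h5, ← hs, hfix]
    rw [h4]
    rfl

private theorem exists_minor {w : D → Rg Gp C} (hw : LinearIndependent ℂ w) : plu w ≠ 0 := by
  classical
  let r : C × Gp → (D → ℂ) := fun p d => w d p
  have hspan : Submodule.span ℂ (Set.range r) = ⊤ := by
    by_contra hne
    obtain ⟨f, hf0, hf⟩ := Submodule.exists_le_ker_of_lt_top _ (lt_top_iff_ne_top.2 hne)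
    apply hf0
    have hfr : ∀ p, f (r p) = 0 := fun p =>
      LinearMap.mem_ker.1 (hf (Submodule.subset_span ⟨p, rfl⟩))
    have hfx : ∀ x : D → ℂ, f x = ∑ d, x d * f (Pi.single d 1) := by
      intro x
      have h1 : x = ∑ d, x d • (Pi.single d (1 : ℂ) : D → ℂ) := by
        funext i
        simp [Finset.sum_apply, Pi.single_apply]
      conv_lhs => rw [h1]
      rw [map_sum]
      simp only [map_smul, smul_eq_mul]
    have hsum : ∑ d, f (Pi.single d 1) • w d = 0 := by
      ext p
      have h1 := hfr p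
      rw [hfx] at h1
      have h2 : (∑ d, f (Pi.single d 1) • w d : Rg Gp C) p = ∑ d, f (Pi.single d 1) * w d p := by
        simp
      rw [h2]
      have h3 : (0 : Rg Gp C) p = 0 := rfl
      rw [h3, ← h1]
      exact Finset.sum_congr rfl fun d _ => mul_comm _ _
    have hc := Fintype.linearIndependent_iff.1 hw (fun d => f (Pi.single d 1)) hsum
    apply LinearMap.ext
    intro x
    rw [hfx]
    simp only [hc, mul_zero, Finset.sum_const_zero, LinearMap.zero_apply]
  obtain ⟨f, hfs, -, hfl⟩ := Submodule.exists_fun_fin_finrank_span_eq ℂ (Set.range r)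
  have hfin : Module.finrank ℂ (Submodule.span ℂ (Set.range r)) = Fintype.card D := by
    rw [hspan, finrank_top, Module.finrank_fintype_fun_eq_card]
  let e : D ≃ Fin (Module.finrank ℂ (Submodule.span ℂ (Set.range r))) :=
    (Fintype.equivFin D).trans (finCongr hfin.symm)
  choose J hJ using fun a => hfs (e a)
  intro h0
  have h1 : plu w J = 0 := by rw [h0]; rfl
  have h2 : LinearIndependent ℂ (fun a => (Matrix.of fun a d => w d (J a)) a) := by
    have h3 := hfl.comp e e.injective
    have h4 : (fun a => (Matrix.of fun a d => w d (J a)) a) = f ∘ e := by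
      funext a
      exact hJ a
    rw [h4]
    exact h3
  have h5 := (Matrix.linearIndependent_rows_iff_isUnit (A := Matrix.of fun a d => w d (J a))).1 h2
  have h6 := (Matrix.isUnit_iff_isUnit_det _).1 h5
  exact h6.ne_zero h1

theorem exists_plu {Q : Rg Gp C →L[ℂ] Rg Gp C} (hi : ∀ v, Q (Q v) = Q v)
    (hs : ∀ v w, inner ℂ (Q v) w = inner ℂ v (Q w))
    (hr : Module.finrank ℂ (LinearMap.range (Q : Rg Gp C →ₗ[ℂ] Rg Gp C)) = Fintype.card D) :
    ∃ w : D → Rg Gp C, (∀ d, Q (w d) = w d) ∧ plu w ≠ 0 ∧
      ∀ J J', minorM Q J J' = plu w J * conj (plu w J') := by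
  classical
  obtain ⟨w, hfix, hli, hexp⟩ := w_expand (D := D) hi hs hr
  refine ⟨w, hfix, exists_minor hli, ?_⟩
  intro J J'
  have hent : ∀ p p', ent Q p p' = ∑ d, w d p * conj (w d p') := by
    intro p p'
    unfold ent
    rw [hexp]
    simp only [EuclideanSpace.inner_single_right]
    simp [mul_comm]
  have hmat : (Matrix.of fun a b => ent Q (J a) (J' b)) =
      (Matrix.of fun a d => w d (J a)) * ((Matrix.of fun a d => w d (J' a)).conjTranspose) := by
    ext a b
    rw [Matrix.mul_apply, Matrix.of_apply, hent]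
    rfl
  unfold minorM plu
  rw [hmat, Matrix.det_mul, Matrix.det_conjTranspose]
  rfl

theorem minorM_cont {X : Type} [TopologicalSpace X] {O : Set X} {Q : X → Rg Gp C →L[ℂ] Rg Gp C}
    (h : ContinuousOn Q O) (J J' : D → C × Gp) : ContinuousOn (fun x => minorM (Q x) J J') O := by
  classical
  have h1 : ContinuousOn (fun x => (Matrix.of fun a b => ent (Q x) (J a) (J' b) : Matrix D D ℂ)) O := by
    refine continuousOn_pi.2 fun a => continuousOn_pi.2 fun b => ?_
    exact (EuclideanSpace.proj (𝕜 := ℂ) (J a)).continuous.comp_continuousOn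
      (h.clm_apply continuousOn_const)
  exact (Continuous.matrix_det continuous_id).comp_continuousOn h1

theorem minorM_tr (g : Gp) {Q Q' : Rg Gp C →L[ℂ] Rg Gp C} (h : ∀ v, Q' (act g v) = act g (Q v))
    (J J' : D → C × Gp) : minorM Q' (tr g J) (tr g J') = minorM Q J J' := by
  classical
  have hs : ∀ p : C × Gp, (EuclideanSpace.single (p.1, g * p.2) (1 : ℂ) : Rg Gp C) =
      act g (EuclideanSpace.single p 1) := by
    intro p
    ext q
    rw [act_apply]
    simp only [PiLp.single_apply]
    have : q = (p.1, g * p.2) ↔ (q.1, g⁻¹ * q.2) = p := by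
      constructor
      · rintro rfl
        simp
      · rintro rfl
        simp
    simp only [this]
  have he : ∀ p p' : C × Gp, ent Q' (p.1, g * p.2) (p'.1, g * p'.2) = ent Q p p' := by
    intro p p'
    have h1 : ent Q' (p.1, g * p.2) (p'.1, g * p'.2) =
        Q' (EuclideanSpace.single (p'.1, g * p'.2) 1) (p.1, g * p.2) := by
      unfold ent
      congr!
    have h2 : ent Q p p' = Q (EuclideanSpace.single p' 1) p := by
      unfold ent
      congr!
    rw [h1, h2, hs, h, act_apply]
    simp
  unfold minorM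
  congr 1
  ext a b
  exact he (J a) (J' b)

theorem plu_chr {w : D → Rg Gp C} {g : Gp} {z : ℂ} (h : ∀ d, act g (w d) = z • w d)
    (J : D → C × Gp) : plu w (tr g⁻¹ J) = z ^ Fintype.card D * plu w J := by
  unfold plu
  rw [← Matrix.det_smul]
  congr 1
  ext a d
  have h1 : w d (tr g⁻¹ J a) = act g (w d) (J a) := rfl
  simp only [Matrix.of_apply, Matrix.smul_apply]
  rw [h1, h]
  rfl

end EMU
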