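import Pool.Agent.Lib.EMU.M.Ker
import Pool.Agent.Lib.EMU.M.Plu
import Pool.Agent.Lib.EMU.C.GrpL

/-!
# MP_9aab3b_gt, module M.Fam: the determinant line bundle of an equivariant family of projections

PROOF. At `x ∈ O` take `w` from `exists_plu` and `b = plu w ≠ 0`: `minorM (Q x) J J' = b J * conj (b J')`, and `minorM (Q x) J J' ^ 3 = b' J * conj (b' J')` with
`b' J = b J ^ 3`, `b' ≠ 0`. Apply the statements of `M/Ker` with `b` and `b'`.
Continuity: `kerP_cont`, `minorM_cont`, `kerP_trace`. Equivariance: `kerP_tau` with `minorM_tr` (for `Q' = Q (ρ g x)`, `IsFam.eqv`); `mul` is `map_mul` of `tauA`.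
`NL`: `v = z • b`; `(tauA (cen n) b) J = b (tr (cen n)⁻¹ J) = (c n)^|D| * b J` by `plu_chr` (`act (cen n) (w d) = act (cen n) (Q x (w d)) = c n • w d`), and
`(zt ^ (n i).val)^|D| = zt ^ (n i).val` since `zt ^ 3 = 1` and `|D| % 3 = 1`.
`cube`: `cbA (z • b) = z ^ 3 • b'`. `secC`: `J ↦ ∑ k, minorM (Q x) J (J₁ k) ^ 3` is `(∑ k, conj (b (J₁ k)) ^ 3) • b'`. `inj`: `v = z • b'`, `b' J ≠ 0`.
-/

set_option autoImplicit false

open scoped Topology ComplexConjugate

namespace EMU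

variable {X C D : Type} [NormedAddCommGroup X] [NormedSpace ℝ X] [Fintype C] [Fintype D]
  [DecidableEq D] {O : Set X} {ρ : Gp →* (X ≃ₗᵢ[ℝ] X)} {Q : X → Rg Gp C →L[ℂ] Rg Gp C} {c : Q3 → ℂ}

private theorem fam_cube_ne {b : AA C D} (hb : b ≠ 0) : (fun J => b J ^ 3 : AA C D) ≠ 0 := by
  intro h
  apply hb
  funext J
  have h1 : b J ^ 3 = 0 := congrFun h J
  exact pow_eq_zero_iff (three_ne_zero) |>.1 h1

private theorem fam_cube_ker {N : (D → C × Gp) → (D → C × Gp) → ℂ} {b : AA C D}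
    (hN : ∀ J J', N J J' = b J * conj (b J')) (J J' : D → C × Gp) :
    N J J' ^ 3 = b J ^ 3 * conj (b J' ^ 3) := by
  rw [hN, mul_pow, map_pow]

theorem IsFam.bunL (h : IsFam O ρ Q (Fintype.card D) c) : IsBun O (fun x => PLm D (Q x)) 1 where
  cont := kerP_cont (fun J J' => minorM_cont h.cont J J') fun x hx => by
    obtain ⟨w, -, hb, hN⟩ := exists_plu (D := D) (h.idem x hx) (h.symm x hx) (h.rank x hx)
    exact kerP_trace hb hN
  idem x hx v := by
    obtain ⟨w, -, hb, hN⟩ := exists_plu (D := D) (h.idem x hx) (h.symm x hx) (h.rank x hx)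
    exact kerP_idem hb hN v
  rank x hx := by
    obtain ⟨w, -, hb, hN⟩ := exists_plu (D := D) (h.idem x hx) (h.symm x hx) (h.rank x hx)
    exact kerP_rank hb hN

theorem IsFam.bunC (h : IsFam O ρ Q (Fintype.card D) c) : IsBun O (fun x => PCm D (Q x)) 1 where
  cont := kerP_cont (fun J J' => (minorM_cont h.cont J J').pow 3) fun x hx => by
    obtain ⟨w, -, hb, hN⟩ := exists_plu (D := D) (h.idem x hx) (h.symm x hx) (h.rank x hx)
    exact kerP_trace (fam_cube_ne hb) (fam_cube_ker hN)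
  idem x hx v := by
    obtain ⟨w, -, hb, hN⟩ := exists_plu (D := D) (h.idem x hx) (h.symm x hx) (h.rank x hx)
    exact kerP_idem (fam_cube_ne hb) (fam_cube_ker hN) v
  rank x hx := by
    obtain ⟨w, -, hb, hN⟩ := exists_plu (D := D) (h.idem x hx) (h.symm x hx) (h.rank x hx)
    exact kerP_rank (fam_cube_ne hb) (fam_cube_ker hN)

theorem IsFam.eqL (h : IsFam O ρ Q (Fintype.card D) c) :
    IsEqBun O (fun x => PLm D (Q x)) ρ (tauA C D) where
  inv := h.inv
  eqv g x hx v := kerP_tau g (fun J J' => minorM_tr g (h.eqv g x hx) J J') v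
  mul g g' x _ v _ := by
    rw [map_mul]
    rfl

theorem IsFam.eqC (h : IsFam O ρ Q (Fintype.card D) c) :
    IsEqBun O (fun x => PCm D (Q x)) ρ (tauA C D) where
  inv := h.inv
  eqv g x hx v := kerP_tau g
    (fun J J' => congrArg (fun z : ℂ => z ^ 3) (minorM_tr g (h.eqv g x hx) J J')) v
  mul g g' x _ v _ := by
    rw [map_mul]
    rfl

theorem IsFam.NL {i : Fin 3} (h : IsFam O ρ Q (Fintype.card D) (fun n => zt ^ (n i).val))
    (hD : Fintype.card D % 3 = 1) : ∀ x ∈ O, ∀ v, PLm D (Q x) v = v → ∀ n : Q3,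
      tauA C D (cen n) v = zt ^ (n i).val • v := by
  intro x hx v hv n
  obtain ⟨w, hfix, hb, hN⟩ := exists_plu (D := D) (h.idem x hx) (h.symm x hx) (h.rank x hx)
  obtain ⟨z, rfl⟩ := (kerP_fix hb hN v).1 hv
  have hact : ∀ d, act (cen n) (w d) = zt ^ (n i).val • w d := by
    intro d
    have h1 := h.chr n x hx (w d)
    rwa [hfix] at h1
  have hpow : (zt ^ (n i).val) ^ Fintype.card D = zt ^ (n i).val := by
    have h1 : Fintype.card D = 3 * (Fintype.card D / 3) + 1 := by omega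
    rw [h1, pow_succ, pow_mul, ← pow_mul zt (n i).val 3, mul_comm (n i).val 3, pow_mul,
      zt_pow_three, one_pow, one_pow, one_mul]
  funext J
  rw [tauA_apply]
  show z * plu w (tr (cen n)⁻¹ J) = zt ^ (n i).val * (z * plu w J)
  rw [plu_chr hact, hpow]
  ring

theorem IsFam.cube (h : IsFam O ρ Q (Fintype.card D) c) :
    IsCube O (fun x => PLm D (Q x)) (fun x => PCm D (Q x)) cbA where
  cont := continuous_pi fun J => (continuous_apply J).pow 3
  hom z v := by
    funext J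
    show (z * v J) ^ 3 = z ^ 3 * v J ^ 3
    ring
  inj v hv := by
    funext J
    have h1 : v J ^ 3 = 0 := congrFun hv J
    exact pow_eq_zero_iff (three_ne_zero) |>.1 h1
  mem x hx v hv := by
    obtain ⟨w, -, hb, hN⟩ := exists_plu (D := D) (h.idem x hx) (h.symm x hx) (h.rank x hx)
    obtain ⟨z, rfl⟩ := (kerP_fix hb hN v).1 hv
    refine (kerP_fix (fam_cube_ne hb) (fam_cube_ker hN) _).2 ⟨z ^ 3, ?_⟩
    funext J
    show (z * plu w J) ^ 3 = z ^ 3 * plu w J ^ 3
    ring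

theorem cbA_tau (g : Gp) (v : AA C D) : cbA (tauA C D g v) = tauA C D g (cbA v) := rfl

theorem IsFam.secC (h : IsFam O ρ Q (Fintype.card D) c) {ι : Type} [Fintype ι]
    (J₁ : ι → D → C × Gp) :
    IsSec O (fun x => PCm D (Q x)) (fun x J => ∑ k, minorM (Q x) J (J₁ k) ^ 3) where
  cont := continuousOn_pi.2 fun J =>
    continuousOn_finsetSum _ fun k _ => (minorM_cont h.cont J (J₁ k)).pow 3
  mem x hx := by
    obtain ⟨w, -, hb, hN⟩ := exists_plu (D := D) (h.idem x hx) (h.symm x hx) (h.rank x hx)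
    refine (kerP_fix (fam_cube_ne hb) (fam_cube_ker hN) _).2
      ⟨∑ k, conj (plu w (J₁ k) ^ 3), ?_⟩
    funext J
    show ∑ k, minorM (Q x) J (J₁ k) ^ 3 = (∑ k, conj (plu w (J₁ k) ^ 3)) * plu w J ^ 3
    rw [Finset.sum_mul]
    refine Finset.sum_congr rfl fun k _ => ?_
    rw [fam_cube_ker hN, mul_comm]

theorem IsFam.inj (h : IsFam O ρ Q (Fintype.card D) c) {x : X} (hx : x ∈ O) {J : D → C × Gp}
    (hJ : minorM (Q x) J J ≠ 0) {v : AA C D} (hv : PCm D (Q x) v = v) (h0 : v J = 0) : v = 0 := by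
  obtain ⟨w, -, hb, hN⟩ := exists_plu (D := D) (h.idem x hx) (h.symm x hx) (h.rank x hx)
  obtain ⟨z, rfl⟩ := (kerP_fix (fam_cube_ne hb) (fam_cube_ker hN) v).1 hv
  have h1 : z * plu w J ^ 3 = 0 := h0
  rw [hN] at hJ
  have h2 : plu w J ^ 3 ≠ 0 := pow_ne_zero 3 (left_ne_zero_of_mul hJ)
  rw [(mul_eq_zero.1 h1).resolve_right h2, zero_smul]

end EMU
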