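import Pool.Agent.Lib.EMU.A.Rep
import Pool.Agent.Lib.EMU.B.Defs
import Pool.Agent.Lib.EMU.C.Grp

/-!
# MP_9aab3b_gt, part M: determinant line bundles by minors (definitions)

`Q` is an orthogonal projection of rank `|D|` of `Rg Gp C`. `minorM Q J J'` (`J, J' : D → C × Gp`) is the determinant of the matrix of the entries of `Q` with
rows `J a` and columns `J' b`. It is `b J * conj (b J')` where `b` is the vector of Plücker coordinates of the range of `Q`. `PLm Q` is the orthogonal
projection onto the line of `b` (the top exterior power of the range), `PCm Q` the projection onto the line of the vector with entries `b J ^ 3`.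
-/

set_option autoImplicit false

open scoped Topology ComplexConjugate

namespace EMU

noncomputable section

/-- functions on the `D`-tuples of elements of `C × Gp` -/
abbrev AA (C D : Type) : Type := (D → C × Gp) → ℂ

/-- translation of a tuple -/
def tr {C D : Type} (g : Gp) (J : D → C × Gp) : D → C × Gp := fun r => ((J r).1, g * (J r).2)

/-- translation of tuples as a bijection -/
def trE {C D : Type} (g : Gp) : (D → C × Gp) ≃ (D → C × Gp) where
  toFun := tr g
  invFun := tr g⁻¹
  left_inv J := by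
    funext r
    simp [tr]
  right_inv J := by
    funext r
    simp [tr]

/-- entrywise cube -/
def cbA {C D : Type} (a : AA C D) : AA C D := fun J => a J ^ 3

section

variable {C D : Type} [Fintype C] [Fintype D] [DecidableEq D]

/-- action of `Gp` on the functions: `(tauA g a) (g J) = a J` -/
def tauA (C D : Type) [Fintype C] [Fintype D] [DecidableEq D] : Gp →* (AA C D ≃L[ℂ] AA C D) where
  toFun g := (LinearEquiv.funCongrLeft ℂ ℂ (trE g⁻¹)).toContinuousLinearEquiv
  map_one' := by
    ext a J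
    show a (tr 1⁻¹ J) = a J
    congr 1
    funext r
    simp [tr]
  map_mul' g h := by
    ext a J
    show a (tr (g * h)⁻¹ J) = a (tr h⁻¹ (tr g⁻¹ J))
    congr 1
    funext r
    simp [tr, mul_assoc]

theorem tauA_apply (g : Gp) (a : AA C D) (J : D → C × Gp) : tauA C D g a J = a (tr g⁻¹ J) := rfl

open Classical in
/-- entries of the matrix of `Q` -/
def ent (Q : Rg Gp C →L[ℂ] Rg Gp C) (p p' : C × Gp) : ℂ := Q (EuclideanSpace.single p' 1) p

/-- minors -/
def minorM (Q : Rg Gp C →L[ℂ] Rg Gp C) (J J' : D → C × Gp) : ℂ :=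
  (Matrix.of fun a b => ent Q (J a) (J' b)).det

/-- the operator with kernel `N`, normalised by its trace -/
def kerP (N : (D → C × Gp) → (D → C × Gp) → ℂ) : AA C D →L[ℂ] AA C D :=
  (∑ J, N J J)⁻¹ • LinearMap.toContinuousLinearMap (Matrix.mulVecLin (Matrix.of N))

theorem kerP_apply (N : (D → C × Gp) → (D → C × Gp) → ℂ) (a : AA C D) (J : D → C × Gp) :
    kerP N a J = (∑ J, N J J)⁻¹ * ∑ J', N J J' * a J' := rfl

/-- projection onto the determinant line -/
def PLm (D : Type) [Fintype D] [DecidableEq D] (Q : Rg Gp C →L[ℂ] Rg Gp C) : AA C D →L[ℂ] AA C D :=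
  kerP (minorM Q)

/-- projection onto the cube of the determinant line -/
def PCm (D : Type) [Fintype D] [DecidableEq D] (Q : Rg Gp C →L[ℂ] Rg Gp C) : AA C D →L[ℂ] AA C D :=
  kerP fun J J' => minorM Q J J' ^ 3

end

/-- a `Gp`-equivariant family of orthogonal projections of rank `d`; the centre acts on the ranges by `c` -/
structure IsFam {X C : Type} [NormedAddCommGroup X] [NormedSpace ℝ X] [Fintype C] (O : Set X)
    (ρ : Gp →* (X ≃ₗᵢ[ℝ] X)) (Q : X → Rg Gp C →L[ℂ] Rg Gp C) (d : ℕ) (c : Q3 → ℂ) : Prop where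
  inv : ∀ g, ∀ x ∈ O, ρ g x ∈ O
  cont : ContinuousOn Q O
  idem : ∀ x ∈ O, ∀ v, Q x (Q x v) = Q x v
  symm : ∀ x ∈ O, ∀ v w, inner ℂ (Q x v) w = inner ℂ v (Q x w)
  rank : ∀ x ∈ O, Module.finrank ℂ (LinearMap.range (Q x : Rg Gp C →ₗ[ℂ] Rg Gp C)) = d
  eqv : ∀ g, ∀ x ∈ O, ∀ v, Q (ρ g x) (act g v) = act g (Q x v)
  chr : ∀ n, ∀ x ∈ O, ∀ v, act (cen n) (Q x v) = c n • Q x v

end

end EMU
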