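import Pool.Agent.Lib.EMU.M.Defs

/-!
# MP_9aab3b_gt, module M.Ker: rank one kernels

PROOF. Let `N J J' = b J * conj (b J')`, `b ≠ 0`. `∑ J, N J J = ∑ ‖b J‖^2 ≠ 0` (`Complex.mul_conj`, positivity: a sum of non negative reals with a positive
term). `kerP N v = ((∑ N J J)⁻¹ * ∑ J', conj (b J') * v J') • b` (`kerP_apply`), in particular `kerP N b = b`. All the statements follow: `kerP N v = v` iff `v` is a
multiple of `b`; the range is the span of `b` (`finrank_span_singleton`).
`kerP_cont`: the map `N ↦ LinearMap.toContinuousLinearMap (Matrix.mulVecLin (Matrix.of N))` is linear from a finite dimensional space, so continuous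
(`LinearMap.continuous_of_finiteDimensional`), `ContinuousOn.comp` with `x ↦ N x` (`continuousOn_pi`), and the inverse of the trace is continuous
(`ContinuousOn.inv₀`).
`kerP_tau`: `tauA_apply`; `kerP N' (tauA g v) (tr g J) = T'⁻¹ ∑ J', N' (tr g J) J' * v (tr g⁻¹ J')`; substitute `J' = tr g J''` (`Equiv.sum_comp (trE g)`), the traces are
equal by the same substitution; every `J` is `tr g (tr g⁻¹ J)`.
-/

set_option autoImplicit false

open scoped Topology ComplexConjugate

namespace EMU

variable {C D : Type} [Fintype C] [Fintype D] [DecidableEq D]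
  {N : (D → C × Gp) → (D → C × Gp) → ℂ} {b : AA C D}

omit [Fintype C] [Fintype D] [DecidableEq D] in
private theorem exists_ne (hb : b ≠ 0) : ∃ J, b J ≠ 0 := by
  by_contra h
  apply hb
  funext J
  by_contra hJ
  exact h ⟨J, hJ⟩

theorem kerP_trace (hb : b ≠ 0) (hN : ∀ J J', N J J' = b J * conj (b J')) : ∑ J, N J J ≠ 0 := by
  have h1 : ∑ J, N J J = ((∑ J, ‖b J‖ ^ 2 : ℝ) : ℂ) := by
    rw [Complex.ofReal_sum]
    refine Finset.sum_congr rfl fun J _ => ?_
    rw [hN, Complex.mul_conj, Complex.normSq_eq_norm_sq]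
  rw [h1]
  intro h2
  have h3 : (∑ J, ‖b J‖ ^ 2 : ℝ) = 0 := by exact_mod_cast h2
  obtain ⟨J, hJ⟩ := exists_ne hb
  rw [Finset.sum_eq_zero_iff_of_nonneg fun i _ => sq_nonneg _] at h3
  have h4 := h3 J (Finset.mem_univ J)
  exact hJ (by simpa using h4)

private theorem kerP_form (hN : ∀ J J', N J J' = b J * conj (b J')) (v : AA C D) :
    kerP N v = ((∑ J, N J J)⁻¹ * ∑ J', conj (b J') * v J') • b := by
  funext J
  rw [kerP_apply, Pi.smul_apply, smul_eq_mul, mul_assoc, Finset.sum_mul]
  congr 1
  refine Finset.sum_congr rfl fun J' _ => ?_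
  rw [hN]
  ring

private theorem kerP_self (hb : b ≠ 0) (hN : ∀ J J', N J J' = b J * conj (b J')) :
    kerP N b = b := by
  rw [kerP_form hN]
  have h1 : ∑ J', conj (b J') * b J' = ∑ J, N J J := by
    refine Finset.sum_congr rfl fun J _ => ?_
    rw [hN, mul_comm]
  rw [h1, inv_mul_cancel₀ (kerP_trace hb hN), one_smul]

theorem kerP_fix (hb : b ≠ 0) (hN : ∀ J J', N J J' = b J * conj (b J')) (v : AA C D) :
    kerP N v = v ↔ ∃ c : ℂ, v = c • b := by
  constructor
  · intro h
    exact ⟨_, h.symm.trans (kerP_form hN v)⟩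
  · rintro ⟨c, rfl⟩
    rw [map_smul, kerP_self hb hN]

theorem kerP_idem (hb : b ≠ 0) (hN : ∀ J J', N J J' = b J * conj (b J')) (v : AA C D) :
    kerP N (kerP N v) = kerP N v := by
  rw [kerP_form hN v, map_smul, kerP_self hb hN]

theorem kerP_rank (hb : b ≠ 0) (hN : ∀ J J', N J J' = b J * conj (b J')) :
    Module.finrank ℂ (LinearMap.range (kerP N : AA C D →ₗ[ℂ] AA C D)) = 1 := by
  have h : LinearMap.range (kerP N : AA C D →ₗ[ℂ] AA C D) = Submodule.span ℂ {b} := by
    apply le_antisymm
    · rintro _ ⟨v, rfl⟩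
      rw [Submodule.mem_span_singleton]
      exact ⟨_, (kerP_form hN v).symm⟩
    · rw [Submodule.span_le, Set.singleton_subset_iff]
      exact ⟨b, kerP_self hb hN⟩
  rw [h]
  exact finrank_span_singleton hb

theorem kerP_cont {X : Type} [TopologicalSpace X] {O : Set X}
    {N : X → (D → C × Gp) → (D → C × Gp) → ℂ} (h : ∀ J J', ContinuousOn (fun x => N x J J') O)
    (h0 : ∀ x ∈ O, ∑ J, N x J J ≠ 0) : ContinuousOn (fun x => kerP (N x)) O := by
  let L : ((D → C × Gp) → (D → C × Gp) → ℂ) →ₗ[ℂ] (AA C D →L[ℂ] AA C D) :=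
    { toFun := fun M => LinearMap.toContinuousLinearMap (Matrix.mulVecLin (Matrix.of M))
      map_add' := fun M M' => by
        refine ContinuousLinearMap.ext fun v => ?_
        show Matrix.mulVec (Matrix.of (M + M')) v =
          Matrix.mulVec (Matrix.of M) v + Matrix.mulVec (Matrix.of M') v
        rw [← Matrix.add_mulVec]
        rfl
      map_smul' := fun c M => by
        refine ContinuousLinearMap.ext fun v => ?_
        show Matrix.mulVec (Matrix.of (c • M)) v = c • Matrix.mulVec (Matrix.of M) v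
        rw [← Matrix.smul_mulVec]
        rfl }
  have hL : Continuous L := LinearMap.continuous_of_finiteDimensional L
  have h1 : ContinuousOn (fun x => (∑ J, N x J J)⁻¹) O :=
    ContinuousOn.inv₀ (continuousOn_finsetSum _ fun J _ => h J J) h0
  have h2 : ContinuousOn (fun x => L (N x)) O :=
    hL.comp_continuousOn (continuousOn_pi.mpr fun J => continuousOn_pi.mpr fun J' => h J J')
  exact h1.smul h2

theorem kerP_tau {N' : (D → C × Gp) → (D → C × Gp) → ℂ} (g : Gp)
    (h : ∀ J J', N' (tr g J) (tr g J') = N J J') (v : AA C D) :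
    kerP N' (tauA C D g v) = tauA C D g (kerP N v) := by
  have htr : ∀ J : D → C × Gp, tr g (tr g⁻¹ J) = J := (trE g).right_inv
  have htr' : ∀ J : D → C × Gp, tr g⁻¹ (tr g J) = J := (trE g).left_inv
  have hT : ∑ J, N' J J = ∑ J, N J J := by
    rw [← Equiv.sum_comp (trE g)]
    exact Finset.sum_congr rfl fun J _ => h J J
  funext J
  rw [kerP_apply, tauA_apply, kerP_apply, hT]
  congr 1
  rw [← Equiv.sum_comp (trE g)]
  refine Finset.sum_congr rfl fun J' _ => ?_
  have h3 : N' J (trE g J') = N (tr g⁻¹ J) J' := by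
    rw [← h, htr]
    rfl
  rw [h3, tauA_apply]
  congr 2
  exact htr' J'

end EMU
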